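import Pool.Agent.helper55.BL.Spec

/-!
# Project BL (MP_143341_co), row DIR: Dirac's theorem on the circumference
-/

set_option autoImplicit false

namespace Pool.Agent.helper55.BL

open Finset
open scoped Classical
open Pool.Agent.helper61.BM (Clo dg)

theorem DIR (hLPA : LPA_stmt) (hDIA : DIA_stmt) (hDIB : DIB_stmt) : DIR_stmt := by
  intro V _ G k hT hk hd hn
  have hne : Nonempty V := by
    rw [← Fintype.card_pos_iff]
    omega
  obtain ⟨m, p, hp, hmax, h0, hm⟩ := hLPA V G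
  have hex : ∀ u : V, ∃ v, G.Adj u v := by
    intro u
    by_contra h
    push Not at h
    have h1 := hd u
    have h2 : dg G u = 0 := by
      unfold dg
      simp [h]
    omega
  obtain ⟨v0, hv0⟩ := hex (p 0)
  obtain ⟨j0, hj0, hpj0⟩ := h0 v0 hv0
  obtain ⟨v1, hv1⟩ := hex (p m)
  obtain ⟨j1, hj1, hpj1⟩ := hm v1 hv1
  obtain ⟨a, ha1, ha2, ha3⟩ : ∃ a, a ≤ m ∧ G.Adj (p 0) (p a) ∧ ∀ j, j ≤ m → G.Adj (p 0) (p j) → j ≤ a := by
    have hS : ((range (m + 1)).filter (fun j => G.Adj (p 0) (p j))).Nonempty :=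
      ⟨j0, by rw [mem_filter, mem_range]; exact ⟨by omega, by rw [hpj0]; exact hv0⟩⟩
    have h1 := max'_mem _ hS
    rw [mem_filter, mem_range] at h1
    refine ⟨_, by omega, h1.2, fun j hj hj2 => ?_⟩
    apply le_max'
    rw [mem_filter, mem_range]
    exact ⟨by omega, hj2⟩
  obtain ⟨b, hb1, hb2, hb3⟩ : ∃ b, b ≤ m ∧ G.Adj (p m) (p b) ∧ ∀ j, j ≤ m → G.Adj (p m) (p j) → b ≤ j := by
    have hS : ((range (m + 1)).filter (fun j => G.Adj (p m) (p j))).Nonempty :=
      ⟨j1, by rw [mem_filter, mem_range]; exact ⟨by omega, by rw [hpj1]; exact hv1⟩⟩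
    have h1 := min'_mem _ hS
    rw [mem_filter, mem_range] at h1
    refine ⟨_, by omega, h1.2, fun j hj hj2 => ?_⟩
    apply min'_le
    rw [mem_filter, mem_range]
    exact ⟨by omega, hj2⟩
  have ha0 : 0 < a := by
    rcases Nat.eq_zero_or_pos a with h | h
    · rw [h] at ha2
      exact absurd ha2 (G.irrefl)
    · exact h
  have hbm : b < m := by
    rcases Nat.lt_or_ge b m with h | h
    · exact h
    · have h2 : b = m := by omega
      rw [h2] at hb2
      exact absurd hb2 (G.irrefl)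
  rcases le_or_gt a b with hab | hab
  · exact hDIA V G m p k a b hT hp h0 hm ha0 hab hbm ha2 ha3 hb2 hb3 (hd _) (hd _)
  · exact hDIB V G m p k b a hT (by omega) hn hp hmax h0 hm hab ha1 hb2 ha2 (hd _) (hd _)

end Pool.Agent.helper55.BL
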